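import Pool.Agent.Helper7.PX.Goals
import Pool.Agent.Helper88.TU.Size
import Pool.Agent.Helper88.CG.VP
import Pool.Agent.Helper33.RR.GT
import Pool.Agent.Helper59.RR.PW
import Pool.Agent.Helper24.PP.MA

/-!
# Mean square over the integers with primes at one or two points (packet MJ of project PX)
-/

set_option autoImplicit false

open Finset Filter Topology

open scoped Classical

namespace Pool.Agent.Helper94.PX

open Pool.Agent.Helper88.PP (pr Rg om Sf SS uu vv ee LA VV QQ cost)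
open Pool.Agent.Helper88.RR (gg ab TB nz Db VM)
open Pool.Agent.Helper88.GM (NI XI In)
open Pool.Agent.Helper88.CG (pw qE mE)
open Pool.Agent.Helper88.TU (Su StmtTG)
open Pool.Agent.Helper7.PX (TE GW gw GD Bd StmtMJ)
open Pool.Agent.Helper33.RR (om_nonneg VM_nonneg VM_ge_one ab_nonneg
  card_labels prod_labels gg_nonneg gg_succ)

/-- sizes: powers of `t` are harmless -/
theorem tpow2 (c : ℝ) (hc : 0 < c) (t : ℝ) (ht : 1 ≤ t) : ∃ E0 : ℕ, ∀ E N : ℕ, E0 ≤ E →
    N ^ 2 ≤ E → (E : ℝ) ^ 2 * (t ^ N * Real.exp (-(c * E))) ≤ Real.exp (-(c / 2 * E)) := by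
  have h1 : ∀ᶠ w : ℝ in atTop, w ^ 2 * Real.exp (-w) < (c / 4) ^ 2 :=
    (Real.tendsto_pow_mul_exp_neg_atTop_nhds_zero 2).eventually (gt_mem_nhds (by positivity))
  obtain ⟨w0, hw0⟩ := eventually_atTop.1 h1
  refine ⟨max ⌈w0 / (c / 4)⌉₊ (max ⌈16 * Real.log t ^ 2 / c ^ 2⌉₊ 1), fun E N hE hN => ?_⟩
  have hE1 : (1 : ℝ) ≤ E := by
    exact_mod_cast ((le_max_right _ _).trans (le_max_right _ _)).trans hE
  have hE2 : w0 / (c / 4) ≤ E :=
    (Nat.le_ceil _).trans (by exact_mod_cast (le_max_left _ _).trans hE)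
  have hE3 : 16 * Real.log t ^ 2 / c ^ 2 ≤ E :=
    (Nat.le_ceil _).trans (by exact_mod_cast ((le_max_left _ _).trans (le_max_right _ _)).trans hE)
  rw [div_le_iff₀ (by positivity)] at hE2 hE3
  have h2 := hw0 (c / 4 * E) (by linarith)
  have h3 : (c / 4) ^ 2 * ((E : ℝ) ^ 2 * Real.exp (-(c / 4 * E))) ≤ (c / 4) ^ 2 * 1 := by
    calc (c / 4) ^ 2 * ((E : ℝ) ^ 2 * Real.exp (-(c / 4 * E)))
        = (c / 4 * E) ^ 2 * Real.exp (-(c / 4 * E)) := by ring
      _ ≤ (c / 4) ^ 2 * 1 := by linarith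
  have h4 : (E : ℝ) ^ 2 * Real.exp (-(c / 4 * E)) ≤ 1 := le_of_mul_le_mul_left h3 (by positivity)
  have h5 : t ^ N * Real.exp (-(c / 4 * E)) ≤ 1 := by
    have ht0 : 0 < t := by linarith
    have h6 : t ^ N = Real.exp (N * Real.log t) := by
      rw [← Real.log_pow, Real.exp_log (by positivity)]
    rw [h6, ← Real.exp_add, Real.exp_le_one_iff]
    have hN' : (N : ℝ) ^ 2 ≤ E := by exact_mod_cast hN
    have h7 : 0 ≤ (c * N / 4 - Real.log t) ^ 2 := sq_nonneg _
    have h8 : c * (N * Real.log t) ≤ c * (c / 4 * E) := by nlinarith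
    have h9 := le_of_mul_le_mul_left h8 hc
    linarith
  calc (E : ℝ) ^ 2 * (t ^ N * Real.exp (-(c * E)))
      = (E : ℝ) ^ 2 * Real.exp (-(c / 4 * E)) * (t ^ N * Real.exp (-(c / 4 * E))) *
          Real.exp (-(c / 2 * E)) := by
        have e1 : Real.exp (-(c * E)) =
            Real.exp (-(c / 4 * E)) * Real.exp (-(c / 4 * E)) * Real.exp (-(c / 2 * E)) := by
          rw [← Real.exp_add, ← Real.exp_add]
          congr 1
          ring
        rw [e1]
        ring
    _ ≤ 1 * 1 * Real.exp (-(c / 2 * E)) := by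
        have ht0 : 0 ≤ t := by linarith
        gcongr
    _ = _ := by ring

/-- the label functions joined: `σ` on `F`, `r` outside `F` -/
def jn {ι : Type} [DecidableEq ι] (F : Finset ι) (p : (ι → ℕ) × (ι → ℕ)) (i : ι) : ℕ :=
  if i ∈ F then p.2 i else p.1 i

/-- the labels on `F` -/
noncomputable def Sg {ι : Type} [Fintype ι] [DecidableEq ι] (F : Finset ι) (S : Finset ℕ) : Finset (ι → ℕ) :=
  Fintype.piFinset (fun i : ι => if i ∈ F then S else {0})

theorem prod_jn {ι M : Type} [Fintype ι] [DecidableEq ι] [CommMonoid M] (F : Finset ι) (f : ι → ℕ → M)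
    (r σ : ι → ℕ) (hr : ∀ i ∈ F, r i = 0) (h0 : ∀ i ∈ F, f i 0 = 1) :
    ∏ i, f i (jn F (r, σ) i) = (∏ i ∈ F, f i (σ i)) * ∏ i, f i (r i) := by
  have h1 : ∏ i ∈ F, f i (σ i) = ∏ i, (if i ∈ F then f i (σ i) else 1) := by
    rw [Finset.prod_ite_mem, Finset.univ_inter]
  rw [h1, ← Finset.prod_mul_distrib]
  refine Finset.prod_congr rfl fun i _ => ?_
  unfold jn
  by_cases hi : i ∈ F
  · simp only [if_pos hi]
    rw [hr i hi, h0 i hi, mul_one]
  · simp only [if_neg hi, one_mul]

theorem sum_Sg {ι : Type} [Fintype ι] [DecidableEq ι] (F : Finset ι) (S : Finset ℕ) (g : ι → ℕ → ℝ) :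
    ∑ σ ∈ Sg F S, ∏ i ∈ F, g i (σ i) = ∏ i ∈ F, ∑ s ∈ S, g i s := by
  have h1 := Finset.prod_univ_sum (fun i : ι => if i ∈ F then S else {0})
    (fun i s => if i ∈ F then g i s else 1)
  have h2 : ∏ i ∈ F, ∑ s ∈ S, g i s = ∏ i, (if i ∈ F then ∑ s ∈ S, g i s else 1) := by
    rw [Finset.prod_ite_mem, Finset.univ_inter]
  have h3 : ∀ σ : ι → ℕ, ∏ i ∈ F, g i (σ i) = ∏ i, (if i ∈ F then g i (σ i) else 1) := by
    intro σ
    rw [Finset.prod_ite_mem, Finset.univ_inter]
  rw [h2, Finset.sum_congr rfl fun σ _ => h3 σ]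
  unfold Sg
  rw [← h1]
  refine Finset.prod_congr rfl fun i _ => ?_
  by_cases hi : i ∈ F
  · simp only [if_pos hi]
  · simp only [if_neg hi, Finset.sum_singleton]

theorem nz_jn {ι : Type} [Fintype ι] [DecidableEq ι] (F : Finset ι) (r σ : ι → ℕ) (hr : ∀ i ∈ F, r i = 0)
    (hs : ∀ i ∈ F, σ i ≠ 0) : nz (jn F (r, σ)) = nz r + F.card := by
  unfold nz
  have h1 : univ.filter (fun i => jn F (r, σ) i ≠ 0) = univ.filter (fun i => r i ≠ 0) ∪ F := by
    ext i
    simp only [mem_filter, mem_univ, true_and, mem_union, jn]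
    by_cases hi : i ∈ F
    · simp [hi, hs i hi]
    · simp [hi]
  rw [h1, Finset.card_union_of_disjoint]
  rw [Finset.disjoint_left]
  intro i hi hiF
  rw [mem_filter] at hi
  exact hi.2 (hr i hiF)

theorem mj (hTG0 : StmtTG) : StmtMJ := by
  obtain ⟨c, hc, E1, hTG⟩ := hTG0
  obtain ⟨c2, hc2, E2, hVP⟩ := Pool.Agent.Helper88.CG.vp
  obtain ⟨E4, hsz⟩ := Pool.Agent.Helper88.TU.size
  obtain ⟨cA, CA, hcA, hCA, hMA⟩ := Pool.Agent.Helper24.PP.ma
  refine ⟨c / 2, (1 + 64 / cA) ^ 2, by positivity, by positivity, fun t ht => ?_⟩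
  obtain ⟨E3, hE3⟩ := tpow2 c hc t ht
  refine ⟨max E4 (max (max E1 E2) (max E3 64)), ?_⟩
  intro E z x y hE hSr b hb P hP hPo F hF a hBd ha0
  have hEE4 : E4 ≤ E := (le_max_left _ _).trans hE
  replace hE := (le_max_right _ _).trans hE
  obtain ⟨z1, z2, z3, z4, z5, z6, z7, z8, z9, z10, z11, z12, z13, z14⟩ := hsz E z x y hEE4 hSr
  have hEE1 : E1 ≤ E := ((le_max_left _ _).trans (le_max_left _ _)).trans hE
  have hEE2 : E2 ≤ E := ((le_max_right _ _).trans (le_max_left _ _)).trans hE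
  have hEE3 : E3 ≤ E := ((le_max_left _ _).trans (le_max_right _ _)).trans hE
  have hE64 : 64 ≤ E := ((le_max_right _ _).trans (le_max_right _ _)).trans hE
  obtain ⟨v1, v2, v3, v4, v5, v6⟩ := hVP E hEE2
  have hEr : (64 : ℝ) ≤ E := by exact_mod_cast hE64
  have hz2 : 2 ≤ z := by omega
  obtain ⟨w1, w2⟩ := v6 z hz2
  unfold GW GD TE Bd at *
  set m := mE E with hm
  set q := qE E with hq
  set M := E / 16 with hM
  set V := E / 32 with hVd
  have hq1 : 1 ≤ q := by
    rw [hq]
    exact Nat.one_le_two_pow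
  have hqm : q * m ≤ M := by
    refine le_trans ?_ v2
    refine Nat.mul_le_mul_right _ ?_
    nlinarith
  have hV1 : 1 ≤ V := by omega
  have hV2 : 2 ≤ V := by omega
  have h2V : 2 * V ≤ M := by omega
  have hzE : z ^ E ≤ x := hSr.2.1
  have hx1 : 1 ≤ x := le_trans (Nat.one_le_pow _ _ (by omega)) hzE
  have hzV : z ^ V ≤ x / 32 := by
    rw [Nat.le_div_iff_mul_le (by norm_num)]
    calc z ^ V * 32 = z ^ V * 2 ^ 5 := by norm_num
      _ ≤ z ^ V * z ^ 5 := Nat.mul_le_mul_left _ (Nat.pow_le_pow_left hz2 5)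
      _ = z ^ (V + 5) := (pow_add _ _ _).symm
      _ ≤ z ^ E := Nat.pow_le_pow_right (by omega) (by omega)
      _ ≤ x := hzE
  have hEy : E ≤ y := by nlinarith
  have hK6 : (2 * (M / m + 2)) ^ 2 ≤ E :=
    le_trans (Nat.pow_le_pow_right (by positivity) (by norm_num)) v4
  have hK : (M / m + 2) ^ 3 ≤ E := by
    refine le_trans ?_ v4
    calc (M / m + 2) ^ 3 ≤ (2 * (M / m + 2)) ^ 3 := Nat.pow_le_pow_left (by omega) 3
      _ ≤ (2 * (M / m + 2)) ^ 6 := Nat.pow_le_pow_right (by positivity) (by norm_num)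
  have hK1 : M / m + 2 ≤ y := by
    have : M / m + 2 ≤ (M / m + 2) ^ 3 := Nat.le_self_pow (by norm_num) _
    omega
  have hom0 : 0 ≤ om y z := om_nonneg y z
  have hIn : In x (x / 32) x (QQ x) b := ⟨dvd_refl _, hb, by omega⟩
  have hXI : 0 ≤ XI (x / 32) x (QQ x) := by
    unfold XI
    positivity
  have hPy : P.card ≤ y := by
    have := Finset.card_le_card hP
    rw [Nat.card_Icc] at this
    omega
  have ht0 : 0 < t := by linarith
  -- the data
  set S : Finset ℕ := SS z (z ^ V) with hS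
  have hS0 : ∀ s ∈ S, s ≠ 0 := by
    intro s hs
    simp only [hS, SS, mem_filter, mem_Ico] at hs
    omega
  have hVM1 : 1 ≤ VM V z := VM_ge_one hV1 hz2
  have hVM0 : VM V z ≠ 0 := by linarith
  set T0 : Finset (P → ℕ) := (TB m q M z P).filter (fun r => ∀ i ∈ F, r i = 0) with hT0
  have hT0F : ∀ r ∈ T0, ∀ i ∈ F, r i = 0 := fun r hr => (mem_filter.1 hr).2
  have hT0T : ∀ r ∈ T0, r ∈ TB m q M z P := fun r hr => (mem_filter.1 hr).1
  have hSgF : ∀ σ ∈ Sg F S, ∀ i ∈ F, σ i ∈ S := by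
    intro σ hσ i hi
    unfold Sg at hσ
    rw [Fintype.mem_piFinset] at hσ
    have := hσ i
    rwa [if_pos hi] at this
  have hSg0 : ∀ σ ∈ Sg F S, ∀ i, i ∉ F → σ i = 0 := by
    intro σ hσ i hi
    unfold Sg at hσ
    rw [Fintype.mem_piFinset] at hσ
    have := hσ i
    rwa [if_neg hi, mem_singleton] at this
  set T : Finset (P → ℕ) := (T0 ×ˢ Sg F S).image (jn F) with hT
  have hinj : Set.InjOn (jn F) ((T0 ×ˢ Sg F S : Finset ((P → ℕ) × (P → ℕ))) :
      Set ((P → ℕ) × (P → ℕ))) := by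
    rintro ⟨r, s⟩ hr ⟨r', s'⟩ hr' heq
    rw [mem_coe, mem_product] at hr hr'
    have h1 : r = r' := by
      funext i
      by_cases hi : i ∈ F
      · rw [hT0F r hr.1 i hi, hT0F r' hr'.1 i hi]
      · have := congrFun heq i
        simpa [jn, hi] using this
    have h2 : s = s' := by
      funext i
      by_cases hi : i ∈ F
      · have := congrFun heq i
        simpa [jn, hi] using this
      · rw [hSg0 s hr.2 i hi, hSg0 s' hr'.2 i hi]
    rw [h1, h2]
  set a' : (P → ℕ) → ℝ := fun r' => a (fun i => if i ∈ F then 0 else r' i) *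
    ∏ i ∈ F, (1 / (VM V z * (Nat.totient (r' i) : ℝ))) with ha'
  have haΦ : ∀ r ∈ T0, ∀ σ : P → ℕ, a' (jn F (r, σ)) =
      a r * ∏ i ∈ F, (1 / (VM V z * (Nat.totient (σ i) : ℝ))) := by
    intro r hr σ
    simp only [ha']
    have e1 : (fun i => if i ∈ F then 0 else jn F (r, σ) i) = r := by
      funext i
      by_cases hi : i ∈ F
      · rw [if_pos hi, hT0F r hr i hi]
      · rw [if_neg hi]
        simp [jn, hi]
    rw [e1]
    congr 1
    refine Finset.prod_congr rfl fun i hi => ?_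
    simp [jn, hi]
  -- the function
  have hred : ∀ n, ∑ r ∈ TB m q M z P, a r * ∏ i : P, vv y z (r i) (n + (i : ℕ)) =
      ∑ r ∈ T0, a r * ∏ i : P, vv y z (r i) (n + (i : ℕ)) := by
    intro n
    symm
    refine Finset.sum_subset (Finset.filter_subset _ _) fun r hr hr' => ?_
    have h1 : ∃ i ∈ F, r i ≠ 0 := by
      by_contra hcon
      push Not at hcon
      exact hr' (mem_filter.2 ⟨hr, hcon⟩)
    rw [ha0 r hr h1, zero_mul]
  have hfun : ∀ n, ∑ r ∈ T, a' r * ∏ i, vv y z (r i) (n + (i : ℕ)) =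
      (∑ r ∈ TB m q M z P, a r * ∏ i : P, vv y z (r i) (n + (i : ℕ))) *
      ∏ i ∈ F, ∑ s ∈ S, 1 / (VM V z * (Nat.totient s : ℝ)) * vv y z s (n + (i : ℕ)) := by
    intro n
    rw [hred, hT, Finset.sum_image hinj, Finset.sum_product, Finset.sum_mul]
    refine Finset.sum_congr rfl fun r hr => ?_
    rw [← sum_Sg F S (fun i s => 1 / (VM V z * (Nat.totient s : ℝ)) * vv y z s (n + (i : ℕ))),
      Finset.mul_sum]
    refine Finset.sum_congr rfl fun σ _ => ?_
    rw [haΦ r hr σ, prod_jn F (fun i s => vv y z s (n + (i : ℕ))) r σ (hT0F r hr)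
      (fun i _ => by simp [vv]), Finset.prod_mul_distrib]
    ring
  have hone : ∀ k : ℕ, (∀ s ∈ S, vv y z s k = 1) →
      ∑ s ∈ S, 1 / (VM V z * (Nat.totient s : ℝ)) * vv y z s k = 1 := by
    intro k hk
    have h1 : ∀ s ∈ S, 1 / (VM V z * (Nat.totient s : ℝ)) * vv y z s k =
        1 / VM V z * (1 / (Nat.totient s : ℝ)) := by
      intro s hs
      rw [hk s hs, mul_one, one_div_mul_one_div]
    rw [Finset.sum_congr rfl h1, ← Finset.mul_sum]
    show 1 / VM V z * VM V z = 1
    exact one_div_mul_cancel (by linarith)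
  -- the second moment
  have hmemT : ∀ r' ∈ T, ∃ r σ, r ∈ T0 ∧ σ ∈ Sg F S ∧ r' = jn F (r, σ) := by
    intro r' hr'
    rw [hT, mem_image] at hr'
    obtain ⟨⟨r, s⟩, hrst, rfl⟩ := hr'
    rw [mem_product] at hrst
    exact ⟨r, s, hrst.1, hrst.2, rfl⟩
  have hnzT : ∀ r ∈ T0, ∀ σ ∈ Sg F S, nz (jn F (r, σ)) = nz r + F.card := fun r hr σ hσ =>
    nz_jn F r σ (hT0F r hr) fun i hi => hS0 _ (hSgF σ hσ i hi)
  set tt : ℝ := t ^ (M / m + 1) with htt
  have htt0 : 0 < tt := by positivity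
  have hTG' := hTG E z x y hEE1 hSr (x / 32) x (QQ x) b hIn m q (M / m + 2) V v1 hqm w1 hK
    le_rfl (by omega) P hP hPo T (fun r => a' r / tt) F ∅ hF (by simp) (by simp) ?_ ?_ (by simp)
    ?_ ?_ ?_
  · -- conclusion
    have hmain : ∑ r ∈ T, a' r ^ 2 *
        (gg y z (nz r) * ∏ i, (if r i = 0 then 1 else (Nat.totient (r i) : ℝ))) ≤
        (om y z / VM V z) ^ F.card * ∑ r ∈ TB m q M z P, gw y z a r := by
      rw [hT, Finset.sum_image hinj, Finset.sum_product]
      have hterm : ∀ r ∈ T0, ∀ σ ∈ Sg F S, a' (jn F (r, σ)) ^ 2 *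
          (gg y z (nz (jn F (r, σ))) * ∏ i, (if jn F (r, σ) i = 0 then 1 else
            (Nat.totient (jn F (r, σ) i) : ℝ))) =
          (a r ^ 2 * (gg y z (nz r + F.card) * ∏ i : P,
            (if r i = 0 then 1 else (Nat.totient (r i) : ℝ)))) *
          ∏ i ∈ F, (1 / VM V z ^ 2 * (1 / (Nat.totient (σ i) : ℝ))) := by
        intro r hr σ hσ
        rw [haΦ r hr σ, hnzT r hr σ hσ, prod_jn F (fun _ v => if v = 0 then (1 : ℝ) else
          (Nat.totient v : ℝ)) r σ (hT0F r hr) (fun i _ => by simp), mul_pow, ← Finset.prod_pow]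
        have e1 : ∏ i ∈ F, (1 / VM V z ^ 2 * (1 / (Nat.totient (σ i) : ℝ))) =
            (∏ i ∈ F, (1 / (VM V z * (Nat.totient (σ i) : ℝ))) ^ 2) *
            ∏ i ∈ F, (if σ i = 0 then (1 : ℝ) else (Nat.totient (σ i) : ℝ)) := by
          rw [← Finset.prod_mul_distrib]
          refine Finset.prod_congr rfl fun i hi => ?_
          have hs0 := hS0 _ (hSgF σ hσ i hi)
          rw [if_neg hs0]
          have hs1 : (Nat.totient (σ i) : ℝ) ≠ 0 := by
            have : 0 < Nat.totient (σ i) := Nat.totient_pos.mpr (Nat.pos_of_ne_zero hs0)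
            exact_mod_cast this.ne'
          field_simp
        rw [e1]
        ring
      rw [Finset.sum_congr rfl fun r hr => Finset.sum_congr rfl fun σ hσ => hterm r hr σ hσ]
      have hS1 : ∑ s ∈ S, 1 / VM V z ^ 2 * (1 / (Nat.totient s : ℝ)) = 1 / VM V z := by
        rw [← Finset.mul_sum]
        show 1 / VM V z ^ 2 * VM V z = _
        field_simp
      rw [Finset.sum_congr rfl fun r _ => (Finset.mul_sum _ _ _).symm, ← Finset.sum_mul,
        sum_Sg F S (fun _ s => 1 / VM V z ^ 2 * (1 / (Nat.totient s : ℝ))), hS1,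
        Finset.prod_const]
      have hgg : ∀ r ∈ TB m q M z P, ∀ k, nz r + k ≤ y →
          gg y z (nz r + k) ≤ om y z ^ k * gg y z (nz r) := by
        intro r hr k
        induction k with
        | zero => intro _; simp
        | succ k ih =>
          intro hk
          calc gg y z (nz r + k + 1) ≤ om y z * gg y z (nz r + k) := gg_succ (by omega)
            _ ≤ om y z * (om y z ^ k * gg y z (nz r)) :=
              mul_le_mul_of_nonneg_left (ih (by omega)) hom0
            _ = _ := by ring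
      have hprod : ∀ r : P → ℕ, 0 ≤ ∏ i : P,
            (if r i = 0 then 1 else (Nat.totient (r i) : ℝ)) := by
        intro r
        refine Finset.prod_nonneg fun i _ => ?_
        split_ifs <;> positivity
      have hgw0 : ∀ r ∈ TB m q M z P, 0 ≤ gw y z a r := by
        intro r hr
        unfold gw
        have h2 := card_labels v1 hz2 hr
        exact mul_nonneg (sq_nonneg _) (mul_nonneg (gg_nonneg (by omega)) (hprod r))
      have h1 : ∑ r ∈ T0, a r ^ 2 * (gg y z (nz r + F.card) * ∏ i : P,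
            (if r i = 0 then 1 else (Nat.totient (r i) : ℝ))) ≤
          om y z ^ F.card * ∑ r ∈ TB m q M z P, gw y z a r := by
        rw [Finset.mul_sum]
        refine (Finset.sum_le_sum (g := fun r => om y z ^ F.card * gw y z a r) fun r hr => ?_).trans
          (Finset.sum_le_sum_of_subset_of_nonneg (Finset.filter_subset _ _) fun r hr _ =>
            mul_nonneg (pow_nonneg hom0 _) (hgw0 r hr))
        have h2 := card_labels v1 hz2 (hT0T r hr)
        have h3 := hgg r (hT0T r hr) F.card (by omega)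
        unfold gw
        calc a r ^ 2 * (gg y z (nz r + F.card) * ∏ i : P,
            (if r i = 0 then 1 else (Nat.totient (r i) : ℝ)))
            ≤ a r ^ 2 * ((om y z ^ F.card * gg y z (nz r)) * ∏ i : P,
            (if r i = 0 then 1 else (Nat.totient (r i) : ℝ))) :=
              mul_le_mul_of_nonneg_left (mul_le_mul_of_nonneg_right h3 (hprod r)) (sq_nonneg _)
          _ = _ := by ring
      calc _ ≤ (om y z ^ F.card * ∑ r ∈ TB m q M z P, gw y z a r) * (1 / VM V z) ^ F.card :=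
            mul_le_mul_of_nonneg_right h1 (by positivity)
        _ = _ := by
          rw [div_eq_mul_one_div, mul_pow]
          ring
    have hstep : ∑ n ∈ (NI (x / 32) x (QQ x) b).filter (fun n => ∀ i ∈ F, (n + (i : ℕ)).Prime),
        (∑ r ∈ TB m q M z P, a r * ∏ i : P, vv y z (r i) (n + (i : ℕ))) ^ 2 ≤
        ∑ n ∈ NI (x / 32) x (QQ x) b, (∑ r ∈ T, a' r * ∏ i, vv y z (r i) (n + (i : ℕ))) ^ 2 := by
      rw [Finset.sum_filter]
      refine Finset.sum_le_sum fun n hn => ?_
      split_ifs with hpr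
      · have hnx : x / 32 < n := by
          unfold NI at hn
          rw [mem_filter, mem_Ioc] at hn
          exact hn.1.1
        have h1 : ∏ i ∈ F, ∑ s ∈ S, 1 / (VM V z * (Nat.totient s : ℝ)) *
            vv y z s (n + (i : ℕ)) = 1 := by
          refine Finset.prod_eq_one fun i hi => ?_
          exact hone (n + (i : ℕ)) fun s hs => Pool.Agent.Helper59.RR.vv_one hV2 hz2 (hpr i hi)
            (n := n) (by omega) (by omega) hs
        rw [hfun, h1, mul_one]
      · exact sq_nonneg _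
    rw [Finset.card_empty, Nat.add_zero] at hTG'
    have hVMl : cA * E / 64 ≤ VM V z := by
      have h1 := (hMA z V hz2 hV1).1
      have h3 : (E : ℝ) / 64 ≤ V := by
        have : E ≤ 64 * V := by omega
        have h4 : (E : ℝ) ≤ 64 * V := by exact_mod_cast this
        linarith
      calc cA * E / 64 = cA * (E / 64) := by ring
        _ ≤ cA * V := mul_le_mul_of_nonneg_left h3 hcA.le
        _ ≤ _ := h1
    have hE0 : (0 : ℝ) < E := by linarith
    -- scale
    have h1 := (abs_le.mp hTG').2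
    have e1 : ∀ n, (∑ r ∈ T, a' r / tt * ∏ i, vv y z (r i) (n + (i : ℕ))) ^ 2 =
        (∑ r ∈ T, a' r * ∏ i, vv y z (r i) (n + (i : ℕ))) ^ 2 / tt ^ 2 := by
      intro n
      rw [← div_pow, Finset.sum_div]
      congr 1
      refine Finset.sum_congr rfl fun r _ => ?_
      ring
    have e2 : ∑ r ∈ T, (a' r / tt) ^ 2 *
        (gg y z (nz r) * ∏ i, (if r i = 0 then 1 else (Nat.totient (r i) : ℝ))) =
        (∑ r ∈ T, a' r ^ 2 *
        (gg y z (nz r) * ∏ i, (if r i = 0 then 1 else (Nat.totient (r i) : ℝ)))) / tt ^ 2 := by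
      rw [Finset.sum_div]
      refine Finset.sum_congr rfl fun r _ => ?_
      ring
    rw [Finset.sum_congr rfl fun n _ => e1 n, ← Finset.sum_div, e2] at h1
    set A : ℝ := ∑ n ∈ NI (x / 32) x (QQ x) b,
      (∑ r ∈ T, a' r * ∏ i, vv y z (r i) (n + (i : ℕ))) ^ 2 with hA
    set B : ℝ := ∑ r ∈ T, a' r ^ 2 *
        (gg y z (nz r) * ∏ i, (if r i = 0 then 1 else (Nat.totient (r i) : ℝ))) with hB
    set X : ℝ := XI (x / 32) x (QQ x) with hX
    set G : ℝ := ∑ r ∈ TB m q M z P, gw y z a r with hG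
    have h2 : A ≤ X * B + tt ^ 2 * Real.exp (-(c * E)) * om y z ^ F.card * X := by
      have h3 : A / tt ^ 2 ≤ X * (B / tt ^ 2) + Real.exp (-(c * E)) * om y z ^ F.card * X := by
        linarith
      rw [div_le_iff₀ (by positivity)] at h3
      calc A ≤ _ := h3
        _ = _ := by
          field_simp
    -- the constants
    have hG0 : 0 ≤ G := by
      refine Finset.sum_nonneg fun r hr => ?_
      unfold gw
      have h2 := card_labels v1 hz2 hr
      refine mul_nonneg (sq_nonneg _) (mul_nonneg (gg_nonneg (by omega)) ?_)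
      refine Finset.prod_nonneg fun i _ => ?_
      split_ifs <;> positivity
    have hC1 : (64 / cA) ^ F.card ≤ (1 + 64 / cA) ^ 2 := by
      calc (64 / cA) ^ F.card ≤ (1 + 64 / cA) ^ F.card := by
            gcongr
            linarith
        _ ≤ (1 + 64 / cA) ^ 2 := by
            refine pow_le_pow_right₀ ?_ hF
            have : 0 < 64 / cA := by positivity
            linarith
    have hC2 : (1 : ℝ) ≤ (1 + 64 / cA) ^ 2 := by
      have : 0 < 64 / cA := by positivity
      nlinarith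
    have h5 : (om y z / VM V z) ^ F.card ≤ (1 + 64 / cA) ^ 2 * (om y z / E) ^ F.card := by
      calc (om y z / VM V z) ^ F.card ≤ (om y z / (cA * E / 64)) ^ F.card := by
            gcongr
        _ = (64 / cA) ^ F.card * (om y z / E) ^ F.card := by
            rw [← mul_pow]
            congr 1
            field_simp
        _ ≤ _ := mul_le_mul_of_nonneg_right hC1 (by positivity)
    have h6 : tt ^ 2 * Real.exp (-(c * E)) * om y z ^ F.card ≤
        (1 + 64 / cA) ^ 2 * (om y z / E) ^ F.card * Real.exp (-(c / 2 * E)) := by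
      have h7 := hE3 E (2 * (M / m + 1)) hEE3 (le_trans (Nat.pow_le_pow_left (by omega) 2) hK6)
      have h8 : tt ^ 2 = t ^ (2 * (M / m + 1)) := by
        rw [htt, ← pow_mul]
        congr 1
        ring
      rw [← h8] at h7
      have h9 : (E : ℝ) ^ F.card ≤ (E : ℝ) ^ 2 := pow_le_pow_right₀ (by linarith) hF
      calc tt ^ 2 * Real.exp (-(c * E)) * om y z ^ F.card
          = ((E : ℝ) ^ F.card * (tt ^ 2 * Real.exp (-(c * E)))) * (om y z / E) ^ F.card := by
            rw [div_pow]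
            field_simp
        _ ≤ ((E : ℝ) ^ 2 * (tt ^ 2 * Real.exp (-(c * E)))) * (om y z / E) ^ F.card := by
            gcongr
        _ ≤ Real.exp (-(c / 2 * E)) * (om y z / E) ^ F.card :=
            mul_le_mul_of_nonneg_right h7 (by positivity)
        _ = 1 * (om y z / E) ^ F.card * Real.exp (-(c / 2 * E)) := by ring
        _ ≤ _ := by gcongr
    calc _ ≤ A := hstep
      _ ≤ X * B + tt ^ 2 * Real.exp (-(c * E)) * om y z ^ F.card * X := h2
      _ ≤ X * ((om y z / VM V z) ^ F.card * G) +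
          (1 + 64 / cA) ^ 2 * (om y z / E) ^ F.card * Real.exp (-(c / 2 * E)) * X :=
          add_le_add (mul_le_mul_of_nonneg_left hmain hXI) (mul_le_mul_of_nonneg_right h6 hXI)
      _ ≤ X * ((1 + 64 / cA) ^ 2 * (om y z / E) ^ F.card * G) +
          (1 + 64 / cA) ^ 2 * (om y z / E) ^ F.card * Real.exp (-(c / 2 * E)) * X := by
          gcongr
      _ = _ := by ring
  · intro r' hr' i hi _
    obtain ⟨r, σ, hr, hσ, rfl⟩ := hmemT r' hr'
    simp only [jn, if_neg hi]
    have h1 := hT0T r hr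
    simp only [TB, mem_filter, Fintype.mem_piFinset, mem_insert] at h1
    exact h1.1 i
  · intro r' hr' i hi
    obtain ⟨r, σ, hr, hσ, rfl⟩ := hmemT r' hr'
    simp only [jn, if_pos hi]
    exact hSgF σ hσ i hi
  · intro r' hr'
    obtain ⟨r, σ, hr, hσ, rfl⟩ := hmemT r' hr'
    rw [hnzT r hr σ hσ]
    have h2 := card_labels v1 hz2 (hT0T r hr)
    omega
  · intro r' hr'
    obtain ⟨r, σ, hr, hσ, rfl⟩ := hmemT r' hr'
    rw [prod_jn F (fun _ v => max 1 v) r σ (hT0F r hr) (fun i _ => by simp)]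
    have h2 := prod_labels hz2 (hT0T r hr)
    have h3 : ∏ i ∈ F, max 1 (σ i) ≤ (z ^ V) ^ F.card := by
      refine Finset.prod_le_pow_card _ _ _ fun i hi => ?_
      have := hSgF σ hσ i hi
      simp only [hS, SS, mem_filter, mem_Ico] at this
      omega
    have h4 : (z ^ V) ^ F.card ≤ (z ^ V) ^ 2 :=
      Nat.pow_le_pow_right (Nat.pos_of_ne_zero (pow_ne_zero _ (by omega))) hF
    calc (∏ i ∈ F, max 1 (σ i)) * ∏ i, max 1 (r i) ≤ (z ^ V) ^ 2 * z ^ M :=
          Nat.mul_le_mul (h3.trans h4) h2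
      _ = z ^ (V * 2 + M) := by rw [← pow_mul, ← pow_add]
      _ ≤ z ^ (2 * M) := Nat.pow_le_pow_right (by omega) (by omega)
  · intro r' hr'
    obtain ⟨r, σ, hr, hσ, rfl⟩ := hmemT r' hr'
    rw [haΦ r hr σ]
    have hprodF : 0 ≤ ∏ i ∈ F, (1 / (VM V z * (Nat.totient (σ i) : ℝ))) := by
      refine Finset.prod_nonneg fun i _ => ?_
      have := VM_nonneg V z
      positivity
    have hab0 : 0 ≤ ∏ i : P, (if r i = 0 then 1 else ab m q z (r i)) := by
      refine Finset.prod_nonneg fun i _ => ?_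
      split_ifs
      · exact zero_le_one
      · exact ab_nonneg _ _ _ _
    have h1 : ∏ i, (if i ∈ F then 1 / (VM V z * (Nat.totient (jn F (r, σ) i) : ℝ)) else
        if i ∈ (∅ : Finset P) then
          (if jn F (r, σ) i = 1 then 1 else ab m q z (jn F (r, σ) i)) else
        if jn F (r, σ) i = 0 then 1 else ab m q z (jn F (r, σ) i)) =
        (∏ i ∈ F, (1 / (VM V z * (Nat.totient (σ i) : ℝ)))) *
        ∏ i : P, (if r i = 0 then 1 else ab m q z (r i)) := by
      have e1 : ∏ i ∈ F, (1 / (VM V z * (Nat.totient (σ i) : ℝ))) =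
          ∏ i, (if i ∈ F then 1 / (VM V z * (Nat.totient (σ i) : ℝ)) else 1) := by
        rw [Finset.prod_ite_mem, Finset.univ_inter]
      rw [e1, ← Finset.prod_mul_distrib]
      refine Finset.prod_congr rfl fun i _ => ?_
      by_cases hi : i ∈ F
      · simp [jn, hi, hT0F r hr i hi]
      · simp [jn, hi]
    rw [h1, abs_div, abs_mul, abs_of_nonneg hprodF, abs_of_pos htt0,
      div_le_iff₀ htt0]
    have h2 := hBd r (hT0T r hr)
    have h3 : ∏ i : P, (if r i = 0 then 1 else t * ab m q z (r i)) =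
        t ^ nz r * ∏ i : P, (if r i = 0 then 1 else ab m q z (r i)) := by
      have e2 : t ^ nz r = ∏ i : P, (if r i = 0 then 1 else t) := by
        unfold nz
        rw [← Finset.prod_const, Finset.prod_filter]
        refine Finset.prod_congr rfl fun i _ => ?_
        by_cases hi : r i = 0 <;> simp [hi]
      rw [e2, ← Finset.prod_mul_distrib]
      refine Finset.prod_congr rfl fun i _ => ?_
      split_ifs <;> ring
    have h4 := card_labels v1 hz2 (hT0T r hr)
    have h5 : t * t ^ nz r ≤ tt := by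
      rw [htt, ← pow_succ']
      exact pow_le_pow_right₀ ht (by omega)
    calc |a r| * ∏ i ∈ F, (1 / (VM V z * (Nat.totient (σ i) : ℝ)))
        ≤ (t * ∏ i : P, (if r i = 0 then 1 else t * ab m q z (r i))) *
          ∏ i ∈ F, (1 / (VM V z * (Nat.totient (σ i) : ℝ))) :=
          mul_le_mul_of_nonneg_right h2 hprodF
      _ = (t * t ^ nz r) * ((∏ i ∈ F, (1 / (VM V z * (Nat.totient (σ i) : ℝ)))) *
          ∏ i : P, (if r i = 0 then 1 else ab m q z (r i))) := by
          rw [h3]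
          ring
      _ ≤ tt * ((∏ i ∈ F, (1 / (VM V z * (Nat.totient (σ i) : ℝ)))) *
          ∏ i : P, (if r i = 0 then 1 else ab m q z (r i))) :=
          mul_le_mul_of_nonneg_right h5 (mul_nonneg hprodF hab0)
      _ = _ := by ring

end Pool.Agent.Helper94.PX
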